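import Mathlib
import Pool.Agent.Results.MP_eb4d96_pr.UniformContraction

/-!
# Hard-core Glauber dynamics at complex fugacities: explicit domain, uniform spectral gap and
uniform local contraction

For `Δ ≥ 2` let `dom Δ` be the open neighbourhood of radius `1 / (12288 Δ⁶)` of the closed interval
`[0, 1/(Δ-1)]` in the complex plane. For every finite graph with `n` vertices and maximum degree at
most `Δ`, and all vertex-dependent fugacities in `dom Δ`, the single-site heat-bath dynamics `P`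
satisfies

* `spr(P) ≤ 1 - 1 / (512 Δ⁶ n)` modulo constants (the order `1/n` is that of the real dynamics);
* if `f` depends only on the occupation of the vertices of a set `A`, then for all `k` the oscillation
  of `P ^ k f` is at most `2 ‖f‖ exp(|A| / (32 Δ⁴)) (1 - 1 / (512 Δ⁶ n)) ^ k`, so that (with time
  measured in sweeps `k / n`) local observables contract at a rate and with constants which do not
  depend on the graph.

The first statement contains the existence of a uniform domain with spectral radius `< 1`, for equal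
and for vertex-dependent fugacities. The proof makes the gauge argument of `UniformContraction`
quantitative.
-/

set_option autoImplicit false

open Finset Pool.Agent.H999R2.HC Pool.Agent.Results.MP_eb4d96_pr.UniformContraction

namespace Pool.Agent.Results.MP_eb4d96_pr.ExplicitGap

universe u

/-- the open neighbourhood of radius `1 / (12288 Δ⁶)` of the interval `[0, 1/(Δ-1)]` in `ℂ` -/
def dom (Δ : ℕ) : Set ℂ :=
  Metric.thickening (1 / (12288 * (Δ : ℝ) ^ 6))
    ((fun t : ℝ => (t : ℂ)) '' Set.Icc 0 (1 / ((Δ : ℝ) - 1)))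

section proof

variable {V : Type u} [Fintype V] [DecidableEq V] {G : SimpleGraph V} [DecidableRel G.Adj]
  {H : Finset V → ℝ}

/-- iteration of the contraction -/
lemma rep_pow [Nonempty V] (hH : ∀ A, 1 ≤ H A) {w : V → ℂ} (hw : ∀ x, 1 + w x ≠ 0) {c : ℝ}
    (hc : ∀ A : Finset V, A.Nonempty → ∑ x ∈ A, (‖1 / (1 + w x)‖ * H (A.erase x) +
      ‖w x / (1 + w x)‖ * H (A.erase x ∪ G.neighborFinset x)) ≤ (A.card - c) * H A)
    {f : IndSets G → ℂ} {r : ℝ} (hf : UniformContraction.Rep G H f r) (k : ℕ) :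
    UniformContraction.Rep G H ((glauber G w).mulVec^[k] f) ((1 - c / Fintype.card V) ^ k * r) := by
  induction k with
  | zero => simpa using hf
  | succ k ih =>
    have h := ih.step hH hw hc
    rw [Function.iterate_succ_apply', pow_succ', mul_assoc]
    exact h

/-- the bound for the spectral radius -/
lemma spr_le [Nonempty V] (hH : ∀ A, 1 ≤ H A) {w : V → ℂ} (hw : ∀ x, 1 + w x ≠ 0) {c : ℝ}
    (hc : ∀ A : Finset V, A.Nonempty → ∑ x ∈ A, (‖1 / (1 + w x)‖ * H (A.erase x) +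
      ‖w x / (1 + w x)‖ * H (A.erase x ∪ G.neighborFinset x)) ≤ (A.card - c) * H A)
    (hc1 : 0 ≤ 1 - c / Fintype.card V)
    (h1 : (glauber G w).mulVec 1 = 1) :
    spectralRadius ℂ (modConst (glauber G w) h1) ≤ ENNReal.ofReal (1 - c / Fintype.card V) := by
  have hn : (0:ℝ) < Fintype.card V := by exact_mod_cast Fintype.card_pos
  set P := glauber G w with hP
  set ρ : ℝ := 1 - c / Fintype.card V with hρ
  have key : ∀ μ : ℂ, μ ∈ spectrum ℂ (modConst P h1) → ‖μ‖ ≤ ρ := by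
    intro μ hμ
    rw [← Module.End.hasEigenvalue_iff_mem_spectrum] at hμ
    obtain ⟨v, hv⟩ := hμ.exists_hasEigenvector
    obtain ⟨f, rfl⟩ := Submodule.Quotient.mk_surjective _ v
    have hv1 := hv.apply_eq_smul
    have hv2 := hv.2
    have hmk : Submodule.Quotient.mk (p := Submodule.span ℂ {(1 : IndSets G → ℂ)})
        (P.mulVec f) = Submodule.Quotient.mk (μ • f) := by
      have : modConst P h1 (Submodule.Quotient.mk f) =
          Submodule.Quotient.mk (P.mulVec f) := by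
        unfold modConst
        rw [Submodule.mapQ_apply]
        rfl
      rw [← this, hv1]; rfl
    rw [Submodule.Quotient.eq, Submodule.mem_span_singleton] at hmk
    obtain ⟨a, ha⟩ := hmk
    have hPf : P.mulVec f = μ • f + a • (1 : IndSets G → ℂ) := by
      rw [ha]; abel
    have hnc : ∃ I J, f I ≠ f J := by
      by_contra hcon
      push Not at hcon
      apply hv2
      rw [Submodule.Quotient.mk_eq_zero, Submodule.mem_span_singleton]
      refine ⟨f emp, ?_⟩
      funext I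
      simp only [Pi.smul_apply, Pi.one_apply, smul_eq_mul, mul_one]
      exact hcon _ _
    obtain ⟨I₀, J₀, hIJ⟩ := hnc
    obtain ⟨M, hM⟩ : ∃ M : ℝ, ∀ I, ‖f I‖ ≤ M := by
      refine ⟨∑ I, ‖f I‖, fun I => ?_⟩
      exact Finset.single_le_sum (f := fun I => ‖f I‖) (fun _ _ => norm_nonneg _)
        (Finset.mem_univ I)
    have hrep0 : UniformContraction.Rep G H f (M * H Finset.univ) :=
      UniformContraction.Rep.base' hH (fun I J h => by
        have : I = J := IndSets.ext' (by simpa using h)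
        rw [this]) hM
    have hpow : ∀ k : ℕ, ∃ b : ℂ, P.mulVec^[k] f = μ ^ k • f + b • (1 : IndSets G → ℂ) := by
      intro k
      induction k with
      | zero => exact ⟨0, by simp⟩
      | succ k ih =>
        obtain ⟨b, hb⟩ := ih
        refine ⟨μ ^ k * a + b, ?_⟩
        rw [Function.iterate_succ_apply', hb, Matrix.mulVec_add, Matrix.mulVec_smul,
          Matrix.mulVec_smul, h1, hPf, smul_add, smul_smul, smul_smul, pow_succ, add_smul,
          add_assoc]
    have hbound : ∀ k : ℕ, ‖μ‖ ^ k * ‖f I₀ - f J₀‖ ≤ 2 * (M * H Finset.univ) * ρ ^ k := by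
      intro k
      obtain ⟨b, hb⟩ := hpow k
      have hr := rep_pow hH hw hc hrep0 k
      obtain ⟨d, hd⟩ := hr.close hH
      have e1 := hd I₀
      have e2 := hd J₀
      rw [← hP, hb] at e1 e2
      simp only [Pi.add_apply, Pi.smul_apply, smul_eq_mul, Pi.one_apply, mul_one] at e1 e2
      have e3 : μ ^ k * (f I₀ - f J₀) = (μ ^ k * f I₀ + b - d) - (μ ^ k * f J₀ + b - d) := by ring
      rw [← norm_pow, ← norm_mul, e3]
      refine (norm_sub_le _ _).trans ?_
      linarith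
    have hd0 : 0 < ‖f I₀ - f J₀‖ := by
      rw [norm_pos_iff, sub_ne_zero]; exact hIJ
    by_contra hcon
    push Not at hcon
    have hμ0 : 0 < ‖μ‖ := hc1.trans_lt hcon
    have hlim : Filter.Tendsto (fun k : ℕ => 2 * (M * H Finset.univ) * (ρ / ‖μ‖) ^ k)
        Filter.atTop (nhds 0) := by
      have := (tendsto_pow_atTop_nhds_zero_of_lt_one (div_nonneg hc1 hμ0.le)
        ((div_lt_one hμ0).2 hcon)).const_mul (2 * (M * H Finset.univ))
      simpa using this
    have hge : ∀ k : ℕ, ‖f I₀ - f J₀‖ ≤ 2 * (M * H Finset.univ) * (ρ / ‖μ‖) ^ k := by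
      intro k
      have h5 : 0 < ‖μ‖ ^ k := pow_pos hμ0 k
      rw [div_pow, mul_div_assoc', le_div_iff₀ h5, mul_comm]
      exact hbound k
    exact absurd (ge_of_tendsto' hlim hge) (not_le.2 hd0)
  unfold spectralRadius
  refine iSup₂_le fun μ hμ => ?_
  have : ((‖μ‖₊ : NNReal) : ENNReal) = ENNReal.ofReal ‖μ‖ := by
    rw [← coe_nnnorm, ENNReal.ofReal_coe_nnreal]
  rw [this]
  exact ENNReal.ofReal_le_ofReal (key μ hμ)

lemma h_le {Δ : ℕ} (A : Finset V) : h G Δ A ≤ A.card := by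
  unfold h hf
  have h1 : 0 ≤ Q G (1 / (4 * Δ)) (1 / (4 * Δ ^ 2)) A A := by
    unfold Q
    exact Finset.sum_nonneg fun x _ => Finset.sum_nonneg fun y _ =>
      ker_nonneg G (1 / (4 * Δ)) (1 / (4 * Δ ^ 2)) (by positivity) (by positivity) x y
  linarith

/-- the estimates for fugacities in the domain -/
lemma setup {Δ : ℕ} (hΔ : 2 ≤ Δ) (hdeg : ∀ x, G.degree x ≤ Δ) {w : V → ℂ}
    (hwD : ∀ x, w x ∈ dom Δ) :
    (∀ x, 1 + w x ≠ 0) ∧ ∀ A : Finset V, A.Nonempty →
      ∑ x ∈ A, (‖1 / (1 + w x)‖ * Real.exp (1 / (32 * (Δ:ℝ) ^ 4) * h G Δ (A.erase x)) +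
      ‖w x / (1 + w x)‖ *
        Real.exp (1 / (32 * (Δ:ℝ) ^ 4) * h G Δ (A.erase x ∪ G.neighborFinset x))) ≤
      (A.card - 1 / (512 * (Δ:ℝ) ^ 6)) * Real.exp (1 / (32 * (Δ:ℝ) ^ 4) * h G Δ A) := by
  have hΔ' : (2:ℝ) ≤ Δ := by exact_mod_cast hΔ
  have hΔ0 : (0:ℝ) < Δ := by linarith
  obtain ⟨c0, hc0⟩ : ∃ c0 : ℝ, c0 = 1 / (8 * (Δ:ℝ) ^ 2) := ⟨_, rfl⟩
  obtain ⟨s, hs⟩ : ∃ s : ℝ, s = c0 / (4 * (Δ:ℝ) ^ 2) := ⟨_, rfl⟩
  obtain ⟨e, he⟩ : ∃ e : ℝ, e = s * c0 / 24 := ⟨_, rfl⟩
  have hs' : s = 1 / (32 * (Δ:ℝ) ^ 4) := by rw [hs, hc0]; field_simp; norm_num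
  have he' : e / 2 = 1 / (12288 * (Δ:ℝ) ^ 6) := by rw [he, hs, hc0]; field_simp; norm_num
  have hcc : s * c0 / 2 = 1 / (512 * (Δ:ℝ) ^ 6) := by rw [hs, hc0]; field_simp; norm_num
  have hc0p : 0 < c0 := by rw [hc0]; positivity
  have hsp : 0 < s := by rw [hs]; positivity
  have hep : 0 < e := by rw [he]; positivity
  have hc01 : c0 ≤ 1 := by rw [hc0, div_le_one (by positivity)]; nlinarith
  have hs1 : s ≤ 1 := by
    rw [hs, div_le_one (by positivity)]; nlinarith
  have he1 : e ≤ 1 / 2 := by rw [he]; nlinarith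
  have hex : ∀ x, ∃ t : ℝ, 0 ≤ t ∧ t ≤ 1 / ((Δ : ℝ) - 1) ∧ ‖w x - t‖ < e / 2 := by
    intro x
    obtain ⟨z, ⟨t, ht, rfl⟩, hz⟩ := Metric.mem_thickening_iff.1 (hwD x)
    rw [← he'] at hz
    exact ⟨t, ht.1, ht.2, by rw [← dist_eq_norm]; exact hz⟩
  choose t ht0 ht1 htw using hex
  have hnorm : ∀ x, 1 / 2 ≤ ‖1 + w x‖ := by
    intro x
    have h1 : (1 + (t x : ℂ)) = (1 + w x) - (w x - t x) := by ring
    have h2 : ‖(1 + (t x : ℂ))‖ = 1 + t x := by
      have : (1 + (t x : ℂ)) = ((1 + t x : ℝ) : ℂ) := by push_cast; rfl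
      rw [this, Complex.norm_real, Real.norm_of_nonneg (by linarith [ht0 x])]
    have h3 : ‖(1 + (t x : ℂ))‖ ≤ ‖1 + w x‖ + ‖w x - t x‖ := by
      rw [h1]; exact norm_sub_le _ _
    have := htw x
    have := ht0 x
    linarith
  have hne : ∀ x, 1 + w x ≠ 0 := by
    intro x h
    have := hnorm x
    rw [h, norm_zero] at this
    linarith
  refine ⟨hne, ?_⟩
  have hq0 : ∀ x, ‖1 / (1 + w x) - ((1 / (1 + t x) : ℝ) : ℂ)‖ ≤ e := by
    intro x
    have h0 := ht0 x
    have h1 : (1 + (t x : ℂ)) ≠ 0 := by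
      have : (1 + (t x : ℂ)) = ((1 + t x : ℝ) : ℂ) := by push_cast; rfl
      rw [this]; exact_mod_cast (by linarith : (1 + t x) ≠ 0)
    have h2 : 1 / (1 + w x) - ((1 / (1 + t x) : ℝ) : ℂ) =
        - (w x - t x) / ((1 + w x) * (1 + t x)) := by
      have := hne x
      push_cast
      field_simp
      ring
    rw [h2, norm_div, norm_neg, norm_mul]
    have h3 : ‖(1 + (t x : ℂ))‖ = 1 + t x := by
      have : (1 + (t x : ℂ)) = ((1 + t x : ℝ) : ℂ) := by push_cast; rfl
      rw [this, Complex.norm_real, Real.norm_of_nonneg (by linarith)]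
    rw [h3]
    have h4 : 1 / 2 ≤ ‖1 + w x‖ * (1 + t x) := by
      have := hnorm x
      nlinarith
    rw [div_le_iff₀ (by linarith)]
    have := htw x
    nlinarith
  have hq : ∀ x, ‖1 / (1 + w x)‖ ≤ 1 - t x / (1 + t x) + e := by
    intro x
    have h0 := ht0 x
    have h1 : ‖((1 / (1 + t x) : ℝ) : ℂ)‖ = 1 - t x / (1 + t x) := by
      rw [Complex.norm_real, Real.norm_of_nonneg (by positivity)]
      field_simp; ring
    calc ‖1 / (1 + w x)‖ = ‖(1 / (1 + w x) - ((1 / (1 + t x) : ℝ) : ℂ)) +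
          ((1 / (1 + t x) : ℝ) : ℂ)‖ := by rw [sub_add_cancel]
      _ ≤ e + (1 - t x / (1 + t x)) := by
          rw [← h1]; exact (norm_add_le _ _).trans (add_le_add (hq0 x) le_rfl)
      _ = _ := by ring
  have hp : ∀ x, ‖w x / (1 + w x)‖ ≤ t x / (1 + t x) + e := by
    intro x
    have h0 := ht0 x
    have h1 : ‖((t x / (1 + t x) : ℝ) : ℂ)‖ = t x / (1 + t x) := by
      rw [Complex.norm_real, Real.norm_of_nonneg (by positivity)]
    have h2 : w x / (1 + w x) = ((t x / (1 + t x) : ℝ) : ℂ) -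
        (1 / (1 + w x) - ((1 / (1 + t x) : ℝ) : ℂ)) := by
      have h3 : w x / (1 + w x) = 1 - 1 / (1 + w x) := by
        have := hne x
        field_simp; ring
      have h4 : ((t x / (1 + t x) : ℝ) : ℂ) = 1 - ((1 / (1 + t x) : ℝ) : ℂ) := by
        have : (t x / (1 + t x) : ℝ) = 1 - 1 / (1 + t x) := by field_simp; ring
        rw [this]; push_cast; rfl
      rw [h3, h4]; ring
    rw [h2]
    refine (norm_sub_le _ _).trans ?_
    rw [h1]
    exact add_le_add le_rfl (hq0 x)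
  have hT0 : ∀ x, 0 ≤ t x / (1 + t x) := fun x => by
    have := ht0 x; positivity
  have hT1 : ∀ x, t x / (1 + t x) ≤ 1 / Δ := by
    intro x
    have h0 := ht0 x
    have h1 := ht1 x
    rw [div_le_div_iff₀ (by linarith) hΔ0]
    rw [le_div_iff₀ (by linarith)] at h1
    linarith
  intro A hA
  rw [← hs', ← hcc]
  exact key_estimate G hΔ hdeg hc0 hs he hT0 hT1 hp hq A hA

end proof

/-- **Explicit uniform contraction region, spectral gap and local contraction for the hard-core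
Glauber dynamics at complex fugacities.** -/
theorem result (Δ : ℕ) (hΔ : 2 ≤ Δ) :
    IsOpen (dom Δ) ∧ IsConnected (dom Δ) ∧
      (∀ t : ℝ, 0 ≤ t → t ≤ 1 / ((Δ : ℝ) - 1) → (t : ℂ) ∈ dom Δ) ∧
      ∀ (V : Type u) [Fintype V] [Nonempty V] [DecidableEq V] (G : SimpleGraph V)
        [DecidableRel G.Adj], G.maxDegree ≤ Δ →
        ∀ w : V → ℂ, (∀ x, w x ∈ dom Δ) →
          (∀ x, 1 + w x ≠ 0) ∧
          (∃ h : (glauber G w).mulVec 1 = 1, spectralRadius ℂ (modConst (glauber G w) h) ≤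
            ENNReal.ofReal (1 - 1 / (512 * (Δ : ℝ) ^ 6) / Fintype.card V)) ∧
          ∀ (A : Finset V) (f : IndSets G → ℂ) (M : ℝ),
            (∀ I J : IndSets G, I.val ∩ A = J.val ∩ A → f I = f J) → (∀ I, ‖f I‖ ≤ M) →
            ∀ (k : ℕ) (I J : IndSets G),
              ‖(glauber G w).mulVec^[k] f I - (glauber G w).mulVec^[k] f J‖ ≤
                2 * M * Real.exp (A.card / (32 * (Δ : ℝ) ^ 4)) *
                  (1 - 1 / (512 * (Δ : ℝ) ^ 6) / Fintype.card V) ^ k := by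
  have hΔ' : (2:ℝ) ≤ Δ := by exact_mod_cast hΔ
  have hΔ0 : (0:ℝ) < Δ := by linarith
  set K : Set ℂ := (fun t : ℝ => (t : ℂ)) '' Set.Icc 0 (1 / ((Δ : ℝ) - 1)) with hK
  have hr : 0 < 1 / (12288 * (Δ : ℝ) ^ 6) := by positivity
  have hKne : K.Nonempty := ⟨_, 0, ⟨le_rfl, div_nonneg zero_le_one (by linarith)⟩, rfl⟩
  have hKconv : Convex ℝ K := by
    have := (convex_Icc (0:ℝ) (1 / ((Δ : ℝ) - 1))).linear_image Complex.ofRealCLM.toLinearMap
    exact this
  refine ⟨Metric.isOpen_thickening, ⟨?_, ?_⟩, ?_, ?_⟩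
  · obtain ⟨z, hz⟩ := hKne
    exact ⟨z, Metric.self_subset_thickening hr K hz⟩
  · exact (hKconv.thickening _).isPreconnected
  · intro t h0 h1
    exact Metric.self_subset_thickening hr K ⟨t, ⟨h0, h1⟩, rfl⟩
  intro V _ _ _ G _ hG w hwD
  have hdeg : ∀ x, G.degree x ≤ Δ := fun x => (G.degree_le_maxDegree x).trans hG
  obtain ⟨hne, hc⟩ := setup hΔ hdeg hwD
  have hsp : 0 ≤ 1 / (32 * (Δ:ℝ) ^ 4) := by positivity
  have hH : ∀ A : Finset V, 1 ≤ Real.exp (1 / (32 * (Δ:ℝ) ^ 4) * h G Δ A) := by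
    intro A
    exact Real.one_le_exp (mul_nonneg hsp (h_nonneg G hΔ hdeg A))
  have hn : (1:ℝ) ≤ Fintype.card V := by exact_mod_cast Fintype.card_pos
  have hc1 : 0 ≤ 1 - 1 / (512 * (Δ : ℝ) ^ 6) / Fintype.card V := by
    have h1 : 1 / (512 * (Δ : ℝ) ^ 6) ≤ 1 := by
      rw [div_le_one (by positivity)]
      have : (1:ℝ) ≤ (Δ:ℝ) ^ 6 := one_le_pow₀ (by linarith)
      linarith
    have h2 : 1 / (512 * (Δ : ℝ) ^ 6) / Fintype.card V ≤ 1 := by
      rw [div_le_one (by linarith)]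
      linarith
    linarith
  refine ⟨hne, ⟨glauber_one hne, spr_le hH hne hc hc1 (glauber_one hne)⟩, ?_⟩
  intro A f M hf hM k I J
  have hM0 : 0 ≤ M := (norm_nonneg _).trans (hM I)
  have hrep0 : UniformContraction.Rep G (fun A => Real.exp (1 / (32 * (Δ:ℝ) ^ 4) * h G Δ A)) f
      (M * Real.exp (1 / (32 * (Δ:ℝ) ^ 4) * h G Δ A)) := UniformContraction.Rep.base' hH hf hM
  obtain ⟨d, hd⟩ := (rep_pow hH hne hc hrep0 k).close hH
  have e1 := hd I
  have e2 := hd J
  have e3 : (glauber G w).mulVec^[k] f I - (glauber G w).mulVec^[k] f J =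
      ((glauber G w).mulVec^[k] f I - d) - ((glauber G w).mulVec^[k] f J - d) := by ring
  have e4 : Real.exp (1 / (32 * (Δ:ℝ) ^ 4) * h G Δ A) ≤ Real.exp (A.card / (32 * (Δ : ℝ) ^ 4)) := by
    apply Real.exp_le_exp.2
    rw [div_mul_eq_mul_div, one_mul]
    exact div_le_div_of_nonneg_right (h_le A) (by positivity)
  have e5 : (1 - 1 / (512 * (Δ : ℝ) ^ 6) / Fintype.card V) ^ k *
      (M * Real.exp (1 / (32 * (Δ:ℝ) ^ 4) * h G Δ A)) ≤
      (1 - 1 / (512 * (Δ : ℝ) ^ 6) / Fintype.card V) ^ k *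
      (M * Real.exp (A.card / (32 * (Δ : ℝ) ^ 4))) :=
    mul_le_mul_of_nonneg_left (mul_le_mul_of_nonneg_left e4 hM0) (pow_nonneg hc1 k)
  rw [e3]
  refine (norm_sub_le _ _).trans ?_
  calc _ ≤ 2 * ((1 - 1 / (512 * (Δ : ℝ) ^ 6) / Fintype.card V) ^ k *
      (M * Real.exp (A.card / (32 * (Δ : ℝ) ^ 4)))) := by linarith
    _ = _ := by ring

end Pool.Agent.Results.MP_eb4d96_pr.ExplicitGap
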